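import Pool.Agent.Helper49.KX.St

/-!
# Project KX (MP_c973ff_an): final assembly from the statements of the modules
-/

set_option autoImplicit false

namespace Pool.Agent.Helper49.KX

open Finset Filter Topology MeasureTheory Module
open scoped ENNReal

theorem card_SB (r N : ℕ) : (SB r N).card ≤ 2 * N := by
  have h : SB r N ⊆ (univ.filter fun i : Fin r => (i : ℕ) < N) ∪ (univ.filter fun i : Fin r => r ≤ (i : ℕ) + N) := by
    intro i hi
    simp only [SB, mem_filter, mem_univ, true_and] at hi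
    simp only [mem_union, mem_filter, mem_univ, true_and]
    exact hi
  have h1 : (univ.filter fun i : Fin r => (i : ℕ) < N).card ≤ N := by
    have : ((univ.filter fun i : Fin r => (i : ℕ) < N).image fun i : Fin r => (i : ℕ)) ⊆ Finset.range N := by
      intro i hi
      simp only [mem_image, mem_filter, mem_univ, true_and] at hi
      obtain ⟨k, hk, rfl⟩ := hi
      exact mem_range.2 hk
    have h2 := card_le_card this
    rwa [card_image_of_injective _ Fin.val_injective, card_range] at h2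
  have h2 : (univ.filter fun i : Fin r => r ≤ (i : ℕ) + N).card ≤ N := by
    have : ((univ.filter fun i : Fin r => r ≤ (i : ℕ) + N).image fun i : Fin r => (i : ℕ)) ⊆ Finset.Ico (r - N) r := by
      intro i hi
      simp only [mem_image, mem_filter, mem_univ, true_and] at hi
      obtain ⟨k, hk, rfl⟩ := hi
      have := k.2
      exact mem_Ico.2 ⟨by omega, by omega⟩
    have h2 := card_le_card this
    rw [card_image_of_injective _ Fin.val_injective, Nat.card_Ico] at h2
    omega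
  calc (SB r N).card ≤ _ := card_le_card h
    _ ≤ _ := card_union_le _ _
    _ ≤ 2 * N := by omega

/-- degree bound of a finite sum -/
theorem exists_deg {X : Type} [TopologicalSpace X] (g : FS X) : ∃ N : ℕ, ∀ m : ℤ, (N : ℤ) < |m| → g m = 0 := by
  refine ⟨∑ m ∈ g.support, m.natAbs, fun m hm => ?_⟩
  by_contra hne
  have h1 : m.natAbs ≤ ∑ m ∈ g.support, m.natAbs :=
    Finset.single_le_sum (f := fun m : ℤ => m.natAbs) (fun _ _ => Nat.zero_le _) (Finsupp.mem_support_iff.2 hne)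
  have h2 : |m| = (m.natAbs : ℤ) := (Int.natCast_natAbs m).symm
  rw [h2] at hm
  exact absurd (Int.ofNat_lt.1 hm) (by simpa using h1)

/-- every finite sum satisfies the exchange condition -/
theorem suit_ev (hEvm : StEvm) (hBbm : StBbm) (hBba : StBba) (hAbs : StAbs) (hWia : StWia) (hWin : StWin) (hLoc : StLoc)
    (hAsm : StAsm) (hSyn : StSyn) (hGap : StGap) (hTow : StTow) (hFlx : StFlx)
    (X : Type) [TopologicalSpace X] [CompactSpace X] [T2Space X] [TotallyDisconnectedSpace X] [Infinite X] (h : X ≃ₜ X)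
    (hm : ∀ x, Dense (Set.range fun n : ℤ => (h ^ n : X ≃ₜ X) x)) (A : Type) [Ring A] [Algebra ℂ A]
    (j : C(X, ℂ) →ₐ[ℂ] A) (U : Aˣ) (hc : Cov h j U) (g : FS X) : Suit (ev j U g) := by
  obtain ⟨hE1, hE2, hE3, hE4, hE5⟩ := hEvm X h A j U hc
  by_cases h0 : tw h g (un - g) = 0
  · have h1 : ev j U g * (1 - ev j U g) = 0 := by
      rw [← hE4, ← hE3, ← hE5, h0]
      simp [ev]
    have h2 : ev j U g * ev j U g = ev j U g := by
      rw [mul_sub, mul_one, sub_eq_zero] at h1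
      exact h1.symm
    refine ⟨1, 1, ?_, ?_⟩
    · rw [mul_one]
      exact h2
    · simp
  · obtain ⟨s, V, hV1, hV2, hV3, hV4⟩ := hFlx X h hm g h0
    obtain ⟨N1, hN1⟩ := exists_deg g
    obtain ⟨N2, hN2⟩ := exists_deg (tw h (tw h g (un - g)) s)
    obtain ⟨Y0, hY1, hY2, hY3⟩ := hGap hSyn X h hm V hV1.isOpen hV2 (N1 + N2) (3 * (2 * (N1 + N2)))
    obtain ⟨n, Y, r, hT, hΦ⟩ := hTow hSyn X h hm Y0 (fun O r => ∃ (κ : Fin r → Fin 4) (σ : Equiv.Perm (Fin r))
      (u : Matrix (Fin r) (Fin r) ℂ), WD r (SB r (N1 + N2)) κ σ u ∧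
      ∀ x ∈ O, IsUnit (Gm κ u (atx (cm h r g) x) (atx (cm h r (tw h (tw h g (un - g)) s)) x))) hY1 hY2
      (fun O O' r hO hP => by
        obtain ⟨κ, σ, u, h1, h2⟩ := hP
        exact ⟨κ, σ, u, h1, fun x hx => h2 x (hO hx)⟩)
      (fun t ht r hr => by
        refine hLoc hWin hWia X h r (N1 + N2) g _ V t hV3 hV4 ?_
        refine le_trans ?_ (hY3 t ht r hr)
        have := card_SB r (N1 + N2)
        omega)
    exact hAsm hEvm hBbm hBba hAbs X h A j U hc g s (N1 + N2) n Y r hT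
      (fun m hm => hN1 m (lt_of_le_of_lt (by push_cast; omega) hm))
      (fun m hm => hN2 m (lt_of_le_of_lt (by push_cast; omega) hm)) hΦ

/-- the theorem -/
theorem kxFinal (hEvm : StEvm) (hAlg : StAlg) (hBbm : StBbm) (hBba : StBba) (hAbs : StAbs) (hWia : StWia) (hWin : StWin)
    (hLoc : StLoc) (hAsm : StAsm) (hSyn : StSyn) (hGap : StGap) (hTow : StTow) (hFlx : StFlx) (hOpn : StOpn)
    (X : Type) [MetricSpace X] [CompactSpace X] [TotallyDisconnectedSpace X] [Infinite X] (h : X ≃ₜ X)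
    (hm : ∀ x, Dense (Set.range fun n : ℤ => (h ^ n : X ≃ₜ X) x)) :
    (∀ g : FS X, ∃ y z : FS X, tw h (tw h g y) (tw h g y) = tw h g y ∧ un - tw h g y = tw h (un - g) z) ∧
    ∀ (p : ℝ≥0∞) [Fact (1 ≤ p)], p ≠ ∞ → ∀ (A : Type) [NormedRing A] [NormedAlgebra ℂ A] (j : C(X, ℂ) →ₐ[ℂ] A) (U : Aˣ),
      IsFp p h A j U →
      (∀ g : FS X, Suit (ev j U g)) ∧ IsOpen {x : A | Suit x} ∧
        Dense {x : A | Suit x} := by
  have key := fun (A : Type) [Ring A] [Algebra ℂ A] (j : C(X, ℂ) →ₐ[ℂ] A) (U : Aˣ) (hc : Cov h j U) (g : FS X) =>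
    suit_ev hEvm hBbm hBba hAbs hWia hWin hLoc hAsm hSyn hGap hTow hFlx X h hm A j U hc g
  constructor
  · intro g
    obtain ⟨A, _, _, j, U, hc, hinj, hsurj⟩ := hAlg hEvm X h
    obtain ⟨hE1, hE2, hE3, hE4, hE5⟩ := hEvm X h A j U hc
    obtain ⟨y, z, h1, h2⟩ := key A j U hc g
    obtain ⟨y, rfl⟩ := hsurj y
    obtain ⟨z, rfl⟩ := hsurj z
    refine ⟨y, z, hinj ?_, hinj ?_⟩
    · rw [hE5, hE5, h1]
    · rw [hE3, hE4, hE5, hE5, hE3, hE4, h2]
  · intro p _ hp A _ _ j U hA
    have hs : ∀ g : FS X, Suit (ev j U g) := fun g => key A j U hA.cov g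
    have := hA.complete
    refine ⟨hs, hOpn A, hA.dense.mono ?_⟩
    rintro _ ⟨g, rfl⟩
    exact hs g

end Pool.Agent.Helper49.KX
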