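import Mathlib

/-!
# Project KX (MP_c973ff_an): finite sums satisfy the exchange condition in the crossed products of minimal Cantor systems.  Definitions
-/

set_option autoImplicit false

namespace Pool.Agent.Helper49.KX

open Finset Filter Topology MeasureTheory
open scoped ENNReal

variable {X : Type} [TopologicalSpace X]

/-- finite sums `∑ f_n u^n`, `f_n ∈ C(X)` -/
abbrev FS (X : Type) [TopologicalSpace X] : Type := ℤ →₀ C(X, ℂ)

/-- `f ∘ h^n` -/
noncomputable def cmp (h : X ≃ₜ X) (n : ℤ) (f : C(X, ℂ)) : C(X, ℂ) :=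
  f.comp ⟨(h ^ n : X ≃ₜ X), (h ^ n : X ≃ₜ X).continuous⟩

@[simp] theorem cmp_apply (h : X ≃ₜ X) (n : ℤ) (f : C(X, ℂ)) (x : X) :
    cmp h n f x = f ((h ^ n : X ≃ₜ X) x) := rfl

/-- the product of finite sums: `f u^m * f' u^n = f (f' ∘ h^(-m)) u^(m+n)` -/
noncomputable def tw (h : X ≃ₜ X) (g g' : FS X) : FS X :=
  g.sum fun m f => g'.sum fun n f' => Finsupp.single (m + n) (f * cmp h (-m) f')

/-- the unit of the algebra of finite sums -/
noncomputable def un : FS X := Finsupp.single 0 1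

/-- the element of `A` of a finite sum -/
noncomputable def ev {A : Type} [Ring A] [Algebra ℂ A] (j : C(X, ℂ) →ₐ[ℂ] A) (U : Aˣ) (g : FS X) : A :=
  g.sum fun n f => j f * ((U ^ n : Aˣ) : A)

/-- the covariance relation `U j(f) U^(-1) = j(f ∘ h^(-1))` -/
def Cov (h : X ≃ₜ X) {A : Type} [Ring A] [Algebra ℂ A] (j : C(X, ℂ) →ₐ[ℂ] A) (U : Aˣ) : Prop :=
  ∀ f, (U : A) * j f = j (cmp h (-1) f) * U

/-- a sigma-finite measure space -/
structure MS where
  /-- the points -/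
  Y : Type
  /-- the measurable sets -/
  mY : MeasurableSpace Y
  /-- the measure -/
  ν : Measure Y
  sf : SigmaFinite ν

/-- the space `L^p(Y, ν)` -/
def LY (p : ℝ≥0∞) (M : MS) : Type := @Lp M.Y ℂ M.mY _ p M.ν

noncomputable instance LYgroup (p : ℝ≥0∞) [Fact (1 ≤ p)] (M : MS) : NormedAddCommGroup (LY p M) :=
  @Lp.instNormedAddCommGroup M.Y ℂ M.mY p M.ν _ _

noncomputable instance LYspace (p : ℝ≥0∞) [Fact (1 ≤ p)] (M : MS) : NormedSpace ℂ (LY p M) :=
  @Lp.instNormedSpace M.Y ℂ M.mY p M.ν _ ℂ _ _ _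

/-- `T` is a linear operator on `L^p(Y, ν)` of norm at most `c` -/
structure Bdd (p : ℝ≥0∞) [Fact (1 ≤ p)] (M : MS) (c : ℝ) (T : LY p M → LY p M) : Prop where
  add : ∀ ξ η, T (ξ + η) = T ξ + T η
  smul : ∀ (a : ℂ) ξ, T (a • ξ) = a • T ξ
  bound : ∀ ξ, ‖T ξ‖ ≤ c * ‖ξ‖

/-- a nondegenerate (here: unital) contractive homomorphism `π` of `C(X)` into the bounded operators of `L^p(Y, ν)`, `ν` sigma-finite -/
structure Rep (p : ℝ≥0∞) [Fact (1 ≤ p)] (X : Type) [TopologicalSpace X] [CompactSpace X] where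
  /-- the measure space -/
  M : MS
  /-- the representation -/
  π : C(X, ℂ) → LY p M → LY p M
  contr : ∀ f, Bdd p M ‖f‖ (π f)
  add : ∀ f g ξ, π (f + g) ξ = π f ξ + π g ξ
  smul : ∀ (a : ℂ) f ξ, π (a • f) ξ = a • π f ξ
  mul : ∀ f g ξ, π (f * g) ξ = π f (π g ξ)
  one : ∀ ξ, π 1 ξ = ξ

/-- the vector `(∑ σ_π(f_n) u^n) ξ` for `ξ ∈ l^p(ℤ, L^p(Y, ν))` of finite support: its value at `m` is
`∑_n π(α^(-m) f_n) ξ(m - n)`, `α^(-m) f = f ∘ h^m` -/
noncomputable def act (p : ℝ≥0∞) [Fact (1 ≤ p)] [CompactSpace X] (h : X ≃ₜ X) (ρ : Rep p X) (g : FS X)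
    (ξ : ℤ →₀ LY p ρ.M) (m : ℤ) : LY p ρ.M :=
  g.sum fun n f => ρ.π (cmp h m f) (ξ (m - n))

/-- the norm of a finite sum in `F^p_r(ℤ, X, h)`: the least `c ≥ 0` with `‖(∑ σ_π(f_n) u^n) ξ‖_p ≤ c ‖ξ‖_p` for all
representations `π` and all `ξ` of finite support in `l^p(ℤ, L^p(Y, ν))` -/
noncomputable def nrm (p : ℝ≥0∞) [Fact (1 ≤ p)] [CompactSpace X] (h : X ≃ₜ X) (g : FS X) : ℝ :=
  sInf {c : ℝ | 0 ≤ c ∧ ∀ (ρ : Rep p X) (ξ : ℤ →₀ LY p ρ.M),
    ∑' m : ℤ, ‖act p h ρ g ξ m‖ ^ p.toReal ≤ c ^ p.toReal * ∑' m : ℤ, ‖ξ m‖ ^ p.toReal}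

/-- `A` is the Banach algebra `F^p_r(ℤ, X, h)`, the completion of the algebra of finite sums: `j : C(X) → A` and the
unit `U` satisfy `U j(f) U^(-1) = j(f ∘ h^(-1))`, finite sums have the norm `nrm` and are dense -/
structure IsFp (p : ℝ≥0∞) [Fact (1 ≤ p)] [CompactSpace X] (h : X ≃ₜ X) (A : Type) [NormedRing A] [NormedAlgebra ℂ A]
    (j : C(X, ℂ) →ₐ[ℂ] A) (U : Aˣ) : Prop where
  complete : CompleteSpace A
  cov : Cov h j U
  norm_eq : ∀ g : FS X, ‖ev j U g‖ = nrm p h g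
  dense : Dense (Set.range (ev j U))

/-- the exchange condition for the element `x`: there is an idempotent `e ∈ xA` with `1 - e ∈ (1 - x)A` -/
def Suit {A : Type} [Ring A] (x : A) : Prop :=
  ∃ y z : A, (x * y) * (x * y) = x * y ∧ 1 - x * y = (1 - x) * z

/-! ### auxiliary definitions -/

open Classical in
/-- the indicator function of a clopen set -/
noncomputable def chi (Y : Set X) : C(X, ℂ) :=
  if hY : IsClopen Y then ⟨Y.indicator fun _ => 1, by
    refine continuous_indicator (fun a ha => ?_) continuousOn_const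
    rw [hY.frontier_eq] at ha
    exact ha.elim⟩ else 0

open Classical in
theorem chi_apply {Y : Set X} (hY : IsClopen Y) (x : X) : chi Y x = if x ∈ Y then 1 else 0 := by
  simp only [chi, hY, dif_pos, ContinuousMap.coe_mk, Set.indicator_apply]

/-- a tower system: clopen bases `Y v`, heights `r v`; the levels `h^i (Y v)`, `i < r v`, form a partition of `X` -/
structure Tow (h : X ≃ₜ X) (n : ℕ) (Y : Fin n → Set X) (r : Fin n → ℕ) : Prop where
  clopen : ∀ v, IsClopen (Y v)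
  disj : ∀ (v w : Fin n) (i k : ℕ), i < r v → k < r w → ∀ x, (h ^ (-(i : ℤ)) : X ≃ₜ X) x ∈ Y v →
    (h ^ (-(k : ℤ)) : X ≃ₜ X) x ∈ Y w → v = w ∧ i = k
  cover : ∀ x, ∃ v, ∃ i : ℕ, i < r v ∧ (h ^ (-(i : ℤ)) : X ≃ₜ X) x ∈ Y v

/-- the block element `∑_v ∑_(i,k < r v) u^i (1_(Y v) M_v(i,k)) u^(-k)` -/
noncomputable def BB (h : X ≃ₜ X) {n : ℕ} (Y : Fin n → Set X) (r : Fin n → ℕ)
    (M : ∀ v, Matrix (Fin (r v)) (Fin (r v)) C(X, ℂ)) : FS X :=
  ∑ v, ∑ i : Fin (r v), ∑ k : Fin (r v),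
    Finsupp.single (((i : ℕ) : ℤ) - ((k : ℕ) : ℤ)) (cmp h (-((i : ℕ) : ℤ)) (chi (Y v) * M v i k))

/-- the matrix of `g` on a tower of height `r`, as functions of the base point `x`: the entry `(k, i)` is
`g_(k-i) (h^k x)` -/
noncomputable def cm (h : X ≃ₜ X) (r : ℕ) (g : FS X) : Matrix (Fin r) (Fin r) C(X, ℂ) :=
  fun k i => cmp h ((k : ℕ) : ℤ) (g (((k : ℕ) : ℤ) - ((i : ℕ) : ℤ)))

/-- window data: `κ` gives the type of a column (0, 1, 2, 3 for P, Q, F, R), `σ` exchanges the columns of type F and R, the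
columns of `u` of type P, Q, F vanish on `S` -/
structure WD (r : ℕ) (S : Finset (Fin r)) (κ : Fin r → Fin 4) (σ : Equiv.Perm (Fin r)) (u : Matrix (Fin r) (Fin r) ℂ) :
    Prop where
  inv : ∀ i, σ (σ i) = i
  fr : ∀ i, κ i = 2 → κ (σ i) = 3
  rf : ∀ i, κ i = 3 → κ (σ i) = 2
  zS : ∀ i l, κ l ≠ 3 → i ∈ S → u i l = 0

/-- the matrix with the columns `c u_l`, `(1 - c) u_l`, `η u_l`, `u_l` for `κ l = 0, 1, 2, 3` -/
noncomputable def Gm {R : Type} [CommRing R] {r : ℕ} (κ : Fin r → Fin 4) (u c η : Matrix (Fin r) (Fin r) R) :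
    Matrix (Fin r) (Fin r) R :=
  fun i l => if κ l = 0 then (c * u) i l else if κ l = 1 then (u - c * u) i l
    else if κ l = 2 then (η * u) i l else u i l

/-- the boundary positions of a window of length `r` -/
def SB (r N : ℕ) : Finset (Fin r) := univ.filter fun i => (i : ℕ) < N ∨ r ≤ (i : ℕ) + N

open Classical in
/-- the interior positions of the window `0, ..., r - 1` at which the orbit of `t` is in `V` -/
noncomputable def vis (h : X ≃ₜ X) (r N : ℕ) (V : Set X) (t : X) : Finset (Fin r) :=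
  univ.filter fun i => i ∉ SB r N ∧ (h ^ ((i : ℕ) : ℤ) : X ≃ₜ X) t ∈ V

/-- the value of a matrix of functions at a point -/
noncomputable def atx {r : ℕ} (M : Matrix (Fin r) (Fin r) C(X, ℂ)) (x : X) : Matrix (Fin r) (Fin r) ℂ := fun i k => M i k x

/-- a matrix of complex numbers as a matrix of constant functions -/
noncomputable def cst {r : ℕ} (u : Matrix (Fin r) (Fin r) ℂ) : Matrix (Fin r) (Fin r) C(X, ℂ) :=
  fun i k => ContinuousMap.const X (u i k)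

/-- `r` is the first return time of `t` to `Y0` -/
def FR (h : X ≃ₜ X) (Y0 : Set X) (t : X) (r : ℕ) : Prop :=
  0 < r ∧ (h ^ (r : ℤ) : X ≃ₜ X) t ∈ Y0 ∧ ∀ i : ℕ, 0 < i → i < r → (h ^ (i : ℤ) : X ≃ₜ X) t ∉ Y0

end Pool.Agent.Helper49.KX
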