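import Pool.Agent.Helper92.KX.M_GAP

/-!
# Project KX, module FLX
-/

set_option autoImplicit false

namespace Pool.Agent.Helper49.KX

open Finset Filter Topology

theorem tw_single_FLX {X : Type} [TopologicalSpace X] (h : X ≃ₜ X) (w : FS X) (k : ℤ) (f' : C(X, ℂ)) (m : ℤ) :
    tw h w (Finsupp.single k f') m = w (m - k) * cmp h (-(m - k)) f' := by
  classical
  have h1 : tw h w (Finsupp.single k f') = w.sum fun n f => Finsupp.single (n + k) (f * cmp h (-n) f') := by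
    unfold tw
    refine Finsupp.sum_congr fun n _ => ?_
    rw [Finsupp.sum_single_index]
    have : cmp h (-n) (0 : C(X, ℂ)) = 0 := rfl
    rw [this, mul_zero, Finsupp.single_zero]
  rw [h1, Finsupp.sum, Finsupp.finsetSum_apply]
  rw [Finset.sum_eq_single (m - k)]
  · rw [sub_add_cancel, Finsupp.single_eq_same]
  · intro n _ hn
    rw [Finsupp.single_apply, if_neg]
    intro he
    exact hn (by omega)
  · intro hn
    rw [Finsupp.notMem_support_iff] at hn
    rw [hn, zero_mul, Finsupp.single_zero]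
    rfl

theorem hFLX : StFlx := by
  classical
  intro X _ _ _ _ _ h hd g hw0
  set w : FS X := tw h g (un - g) with hw
  have hmul : ∀ (m n : ℤ) (x : X), (h ^ (m + n) : X ≃ₜ X) x = (h ^ m : X ≃ₜ X) ((h ^ n : X ≃ₜ X) x) := by
    intro m n x
    rw [zpow_add]
    rfl
  obtain ⟨n0, hn0⟩ : ∃ n0, w n0 ≠ 0 := by
    by_contra hcon
    push Not at hcon
    exact hw0 (Finsupp.ext hcon)
  obtain ⟨t1, ht1⟩ : ∃ t1, w n0 t1 ≠ 0 := by
    by_contra hcon
    push Not at hcon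
    exact hn0 (ContinuousMap.ext hcon)
  have hnp : ∀ m : ℤ, m ≠ 0 → (h ^ (-m) : X ≃ₜ X) t1 ≠ t1 := by
    intro m hm he
    rcases lt_or_gt_of_ne hm with h1 | h1
    · obtain ⟨k, hk⟩ : ∃ k : ℕ, (k : ℤ) = -m := ⟨(-m).toNat, Int.toNat_of_nonneg (by omega)⟩
      rw [← hk] at he
      exact Pool.Agent.Helper92.KX.not_periodic h hd t1 k (by omega) he
    · obtain ⟨k, hk⟩ : ∃ k : ℕ, (k : ℤ) = m := ⟨m.toNat, Int.toNat_of_nonneg (by omega)⟩
      have h2 : (h ^ m : X ≃ₜ X) t1 = t1 := by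
        have h3 := hmul m (-m) t1
        rw [add_neg_cancel, he] at h3
        rw [← h3]
        simp
      rw [← hk] at h2
      exact Pool.Agent.Helper92.KX.not_periodic h hd t1 k (by omega) h2
  have hW : ∀ m : ℤ, ∃ W : Set X, IsClopen W ∧ (m ≠ 0 → t1 ∈ W ∧ (h ^ (-m) : X ≃ₜ X) t1 ∉ W) := by
    intro m
    by_cases hm : m ≠ 0
    · obtain ⟨W, hW1, hW2, hW3⟩ := exists_isClopen_of_totally_separated (hnp m hm).symm
      exact ⟨W, hW1, fun _ => ⟨hW2, hW3⟩⟩
    · exact ⟨Set.univ, isClopen_univ, fun h => absurd h hm⟩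
  choose W hWc hW using hW
  obtain ⟨V', hV'c, hV't, hV's⟩ : ∃ V' : Set X, IsClopen V' ∧ t1 ∈ V' ∧ V' ⊆ {x | w n0 x ≠ 0} := by
    have ho : IsOpen {x | w n0 x ≠ 0} := isOpen_ne_fun (w n0).continuous continuous_const
    exact compact_exists_isClopen_in_isOpen ho ht1
  set T : Finset ℤ := (w.support.image fun n => n - n0).filter fun m => m ≠ 0 with hT
  set V : Set X := V' ∩ ⋂ m ∈ T, (W m ∩ (h ^ (-m) : X ≃ₜ X) ⁻¹' (W m)ᶜ) with hV
  have hVc : IsClopen V := by
    refine hV'c.inter (isClopen_biInter_finset fun m _ => ?_)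
    exact (hWc m).inter ((hWc m).compl.preimage (h ^ (-m) : X ≃ₜ X).continuous)
  have hVt : t1 ∈ V := by
    refine ⟨hV't, Set.mem_iInter₂.2 fun m hm => ?_⟩
    obtain ⟨h1, h2⟩ := hW m (Finset.mem_filter.1 hm).2
    exact ⟨h1, h2⟩
  have hV0 : ∀ x ∈ V, w n0 x ≠ 0 := fun x hx => hV's hx.1
  have hVm : ∀ x ∈ V, ∀ m ∈ T, (h ^ (-m) : X ≃ₜ X) x ∉ V := by
    intro x hx m hm hx2
    have h1 := Set.mem_iInter₂.1 hx.2 m hm
    have h2 := Set.mem_iInter₂.1 hx2.2 m hm
    exact h1.2 h2.1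
  let F : C(X, ℂ) := ⟨V.indicator fun x => (w n0 x)⁻¹, by
    refine continuous_indicator (fun a ha => ?_) ?_
    · rw [hVc.frontier_eq] at ha
      exact ha.elim
    · rw [hVc.isClosed.closure_eq]
      exact (w n0).continuous.continuousOn.inv₀ fun x hx => hV0 x hx⟩
  have hF1 : ∀ x ∈ V, F x = (w n0 x)⁻¹ := by
    intro x hx
    change V.indicator (fun x => (w n0 x)⁻¹) x = _
    rw [Set.indicator_of_mem hx]
  have key : ∀ (m : ℤ) (x : X), tw h w (Finsupp.single (-n0) (cmp h n0 F)) m x = w (m + n0) x * F ((h ^ (-m) : X ≃ₜ X) x) := by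
    intro m x
    rw [tw_single_FLX, sub_neg_eq_add, ContinuousMap.mul_apply, cmp_apply, cmp_apply, ← hmul]
    congr 3
    congr 1
    ring
  refine ⟨Finsupp.single (-n0) (cmp h n0 F), V, hVc, ⟨t1, hVt⟩, fun x hx => ?_, fun m hm x hx hx2 => ?_⟩
  · rw [key, zero_add, neg_zero, zpow_zero]
    change w n0 x * F x = 1
    rw [hF1 x hx, mul_inv_cancel₀ (hV0 x hx)]
  · rw [key]
    by_cases h0 : w (m + n0) = 0
    · rw [h0]
      simp
    · exfalso
      refine hVm x hx m ?_ hx2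
      rw [hT, Finset.mem_filter, Finset.mem_image]
      exact ⟨⟨m + n0, Finsupp.mem_support_iff.2 h0, by ring⟩, hm⟩

end Pool.Agent.Helper49.KX
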