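import Pool.Agent.Helper49.KX.Defs

/-!
# Project KX (MP_c973ff_an): statements of the modules, with complete proofs in the docstrings

Notation: `U^n j(f) U^(-n) = j(f ∘ h^(-n))` in `A`.  All proofs are elementary.
-/

set_option autoImplicit false

namespace Pool.Agent.Helper49.KX

open Finset Filter Topology MeasureTheory Module

/-! ### algebra -/

/-- EVM (`ev` is additive and multiplicative).

Proof. `U^n j(f) = j(f ∘ h^(-n)) U^n` for `n ∈ ℤ`: for `n = 1` this is `Cov`; `n ≥ 0` by induction; applied to `f ∘ h^n` it gives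
`U^n j(f ∘ h^n) = j(f) U^n`, i.e. `U^(-n) j(f) = j(f ∘ h^n) U^(-n)`.  `ev` is additive in `g` (`Finsupp.sum_add_index'`).
`ev (tw h g g') = ∑_(m,n) j(f (f' ∘ h^(-m))) U^(m+n) = ∑ j(f) (j(f' ∘ h^(-m)) U^m) U^n = ∑ j(f) U^m j(f') U^n`. -/
def StEvm : Prop :=
  ∀ (X : Type) [TopologicalSpace X] (h : X ≃ₜ X) (A : Type) [Ring A] [Algebra ℂ A] (j : C(X, ℂ) →ₐ[ℂ] A) (U : Aˣ),
    Cov h j U →
    (∀ (n : ℤ) (f : C(X, ℂ)), ((U ^ n : Aˣ) : A) * j f = j (cmp h (-n) f) * ((U ^ n : Aˣ) : A)) ∧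
    (∀ g g' : FS X, ev j U (g + g') = ev j U g + ev j U g') ∧
    (∀ g g' : FS X, ev j U (g - g') = ev j U g - ev j U g') ∧
    ev j U (un : FS X) = 1 ∧ (∀ g g' : FS X, ev j U (tw h g g') = ev j U g * ev j U g')

/-- ALG (the algebra of finite sums exists as a ring).

Proof. Let `E = ℤ × X → ℂ`, `B = Module.End ℂ E`, `(j f ξ)(m, x) = f (h^m x) ξ(m, x)`, `(U ξ)(m, x) = ξ(m - 1, x)`.  `j` is a unital
algebra homomorphism, `U` is invertible, `(U^n ξ)(m, x) = ξ(m - n, x)`, `(U j(f) ξ)(m, x) = f(h^(m-1) x) ξ(m-1, x) = (j(f ∘ h^(-1)) U ξ)(m, x)`.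
By StEvm the range of `ev j U` is a subalgebra `A` of `B` (it contains `algebraMap ℂ B c = ev (single 0 (const c))`); it contains all
`j f`, `U`, `U⁻¹`; restrict `j`, `U` to `A`; then `ev` is surjective.  Injective: for `ξ = Pi.single (0, x) 1` the value of `ev g ξ` at
`(n, x)` is `g_n (h^n x)`; if `ev g = ev g'` then `g_n (h^n x) = g'_n (h^n x)` for all `n, x`, and `x` is arbitrary.
(Any other construction is fine, e.g. `SkewMonoidAlgebra`.) -/
def StAlg : Prop :=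
  StEvm → ∀ (X : Type) [TopologicalSpace X] (h : X ≃ₜ X),
    ∃ (A : Type) (_ : Ring A) (_ : Algebra ℂ A) (j : C(X, ℂ) →ₐ[ℂ] A) (U : Aˣ), Cov h j U ∧ Function.Bijective (ev j U)

/-- BBM (block elements form a copy of the matrices).

Proof. By StEvm (`j(f ∘ h^(-i)) U^(i-k) = U^i j(f) U^(-k)`) we have `ev (BB M) = ∑_v ∑_(i,k) U^i j(χ_v M_v(i,k)) U^(-k)`, `χ_v = chi (Y v)`.
Additivity: clear.  Product: `j(χ_v f) U^(-k) U^l j(χ_w f') = j(χ_v f (χ_w f') ∘ h^(k-l)) U^(l-k)` and `χ_v (χ_w ∘ h^(k-l)) = 0` for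
`k < r v`, `l < r w` unless `v = w`, `k = l`: if `x ∈ Y v` and `h^(k-l) x ∈ Y w` then for `z = h^k x`: `h^(-k) z ∈ Y v`, `h^(-l) z ∈ Y w`, so
`disj` applies; `χ_v² = χ_v`.  So `ev (BB M) ev (BB M') = ∑_v ∑_(i,k,l) U^i j(χ_v M_v(i,k) M'_v(k,l)) U^(-l) = ev (BB (M M'))`.
Unit: `ev (BB 1) = ∑_v ∑_i j(χ_v ∘ h^(-i)) = j(1)`, since `∑_v ∑_(i < r v) χ_v (h^(-i) x) = 1` for all `x` (`cover`, `disj`).
Last claim: `χ_v M_v(i,k) = χ_v M'_v(i,k)`. -/
def StBbm : Prop :=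
  StEvm → ∀ (X : Type) [TopologicalSpace X] (h : X ≃ₜ X) (A : Type) [Ring A] [Algebra ℂ A] (j : C(X, ℂ) →ₐ[ℂ] A)
    (U : Aˣ), Cov h j U → ∀ (n : ℕ) (Y : Fin n → Set X) (r : Fin n → ℕ), Tow h n Y r →
    ev j U (BB h Y r fun _ => 1) = 1 ∧
    (∀ M M' : ∀ v, Matrix (Fin (r v)) (Fin (r v)) C(X, ℂ),
      ev j U (BB h Y r fun v => M v + M' v) = ev j U (BB h Y r M) + ev j U (BB h Y r M')) ∧
    (∀ M M' : ∀ v, Matrix (Fin (r v)) (Fin (r v)) C(X, ℂ),
      ev j U (BB h Y r fun v => M v * M' v) = ev j U (BB h Y r M) * ev j U (BB h Y r M')) ∧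
    (∀ M M' : ∀ v, Matrix (Fin (r v)) (Fin (r v)) C(X, ℂ), (∀ v, ∀ x ∈ Y v, ∀ i k, M v i k x = M' v i k x) →
      BB h Y r M = BB h Y r M')

/-- BBA (a finite sum acts on the block elements whose boundary rows vanish by its window matrices).

Proof. `ev g * U^i j(f) U^(-l) = ∑_n j(g_n) U^(n+i) j(f) U^(-l)`; if `i ∉ SB (r v) N`, i.e. `N ≤ i` and `i + N < r v`, then for `|n| ≤ N` the
number `k = n + i` is in `[0, r v)`, and `j(g_(k-i)) U^k = U^k j(g_(k-i) ∘ h^k)`.  So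
`ev g * ev (BB M) = ∑_v ∑_(i,l) ∑_(k < r v) U^k j((g_(k-i) ∘ h^k) χ_v M_v(i,l)) U^(-l)`; the terms with `i ∈ SB (r v) N` are zero on both
sides (`χ_v M_v(i,l) = 0`), and for `i ∉ SB` all `n` with `g_n ≠ 0` give a `k ∈ [0, r v)` and the `k` with `|k - i| > N` contribute zero. -/
def StBba : Prop :=
  StEvm → ∀ (X : Type) [TopologicalSpace X] (h : X ≃ₜ X) (A : Type) [Ring A] [Algebra ℂ A] (j : C(X, ℂ) →ₐ[ℂ] A)
    (U : Aˣ), Cov h j U → ∀ (n : ℕ) (Y : Fin n → Set X) (r : Fin n → ℕ), Tow h n Y r →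
    ∀ (g : FS X) (N : ℕ) (M : ∀ v, Matrix (Fin (r v)) (Fin (r v)) C(X, ℂ)), (∀ m : ℤ, (N : ℤ) < |m| → g m = 0) →
    (∀ v, ∀ x ∈ Y v, ∀ i ∈ SB (r v) N, ∀ k, M v i k x = 0) →
    ev j U g * ev j U (BB h Y r M) = ev j U (BB h Y r fun v => cm h (r v) g * M v)

/-- ABS (absorption lemma).

Proof. `α = x r - f x r + φ`, so `f α = φ`, `α r = α`, `φ' α = φ' f α = φ' φ = r`.  `e := p - p α φ' + α (r + φ' - r α φ')`.  Then
`e α = p α - p α r + α (r α + r - r α r) = α r = α` and `e p = p` (`φ' p = φ' f p = 0`, `r p = 0`), so `e e = e p (1 - α φ') + e α (...) = e`.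
`e ∈ xA`: `p = x a`, `α = x r - x c (x r - φ)` (use `f φ = φ`).  `1 - e = q - q α φ' + (r - α)(r - r α φ')`: the sum of the two is
`p + q - (p + q) α φ' + α φ' + r - r α φ' = p + q + r + f α φ' = p + q + r + f = 1` (`f α φ' = φ φ' = f`).
`1 - e ∈ (1 - x)A`: `q = (1 - x) b`, `r - α = (1 - x) r + (1 - x) c' (x r - φ)`. -/
def StAbs : Prop :=
  ∀ (A : Type) [Ring A] (x p q f r φ φ' a b c c' : A), p + q + f + r = 1 →
    p * p = p → q * q = q → f * f = f → r * r = r → p * q = 0 → q * p = 0 → p * f = 0 → f * p = 0 → p * r = 0 →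
    r * p = 0 → q * f = 0 → f * q = 0 → q * r = 0 → r * q = 0 → f * r = 0 → r * f = 0 →
    f * φ = φ → φ * r = φ → r * φ' = φ' → φ' * f = φ' → φ' * φ = r → φ * φ' = f →
    p = x * a → q = (1 - x) * b → f = x * c → f = (1 - x) * c' → Suit x

/-! ### linear algebra in a window -/

/-- WIA (subspaces).

Proof. `Q1` := a complement of `V1 ⊓ V2` in `V2`; then `V1 ⊔ Q1 = V1 ⊔ V2`, `V1 ⊓ Q1 = ⊥`.  `R` := a complement of `V1 ⊔ V2` in `V`,
`μ = dim R ≤ m`.  `V = V1 ⊕ Q1 ⊕ R` with projections `α` onto `V1`, `β` onto `Q1`.  The common kernel of `α, β` on `E` is `E ⊓ R`, of dimension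
`≤ μ`, so `dim α(E) + dim β(E) ≥ dim E - μ ≥ 2 μ`.  If `dim α(E) ≥ μ`: choose `F ≤ E` of dimension `μ` on which `α` is injective, `P` := a
complement of `α(F)` in `V1`, `Q := Q1`.  As `v - α v ∈ Q1 ⊔ R` for all `v`, `P ⊔ Q1 ⊔ F ⊔ R ⊇ P ⊔ α(F) ⊔ Q1 ⊔ R = ⊤`, and the dimensions add up.
If `dim β(E) ≥ μ`: choose `F ≤ E` of dimension `μ` on which `β` is injective, `Q` := a complement of `β(F)` in `Q1`, `P := V1`. -/
def StWia : Prop :=
  ∀ (V : Type) [AddCommGroup V] [Module ℂ V] [FiniteDimensional ℂ V] (V1 V2 E : Submodule ℂ V) (m : ℕ),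
    finrank ℂ V ≤ finrank ℂ (V1 ⊔ V2 : Submodule ℂ V) + m → 3 * m ≤ finrank ℂ E →
    ∃ P Q F R : Submodule ℂ V, P ≤ V1 ∧ Q ≤ V2 ∧ F ≤ E ∧ finrank ℂ F = finrank ℂ R ∧
      finrank ℂ P + finrank ℂ Q + finrank ℂ F + finrank ℂ R = finrank ℂ V ∧ P ⊔ Q ⊔ F ⊔ R = ⊤

/-- WIN (window data).

Proof. `V = Fin r → ℂ`, `Z = {w : w = 0 on S}`, `V1 = c Z`, `V2 = (1 - c) Z`, `E = η (T-supported vectors)`.  `Z ≤ V1 ⊔ V2` as
`w = c w + (1 - c) w`, so `dim (V1 ⊔ V2) ≥ r - |S|`; the columns `η_τ`, `τ ∈ T`, are independent (their `T × T` block is the identity), so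
`dim E = |T| ≥ 3 |S|`.  Apply StWia with `m = |S|`: `P, Q, F, R`.  Bases of `P, Q, F, R` together are a basis of `V` (they span, and their number
is `r`); number it by `Fin r`, `κ l` = 0, 1, 2, 3 for the vectors of `P, Q, F, R`, and let `σ` be an involution exchanging the numbers of
the vectors of `F` and of `R` (there are equally many) and fixing the others.  The column `u_l`: for `κ l = 0` a `w ∈ Z` with `c w = p_l`; for `κ l = 1` a
`w ∈ Z` with `(1 - c) w = q_l`; for `κ l = 2` a `w` supported in `T` (so zero on `S`) with `η w = f_l`; for `κ l = 3` the vector itself.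
The columns of `Gm κ u c η` are the basis, so it is invertible. -/
def StWin : Prop :=
  StWia → ∀ (r : ℕ) (S T : Finset (Fin r)) (c η : Matrix (Fin r) (Fin r) ℂ), Disjoint S T → 3 * S.card ≤ T.card →
    (∀ τ ∈ T, ∀ τ' ∈ T, η τ' τ = if τ' = τ then 1 else 0) →
    ∃ (κ : Fin r → Fin 4) (σ : Equiv.Perm (Fin r)) (u : Matrix (Fin r) (Fin r) ℂ), WD r S κ σ u ∧ IsUnit (Gm κ u c η)

/-- LOC (window data are valid near a point).

Proof. `S = SB r N`, `T = vis h r N V t = {i : i ∉ S, h^i t ∈ V}`, `c = atx (cm h r g) t`, `η = atx (cm h r y) t`, `η τ' τ = y_(τ'-τ)(h^(τ') t)`; for `τ, τ' ∈ T` the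
point `x = h^(τ') t` is in `V` and `h^(-(τ'-τ)) x = h^τ t` is in `V`, so `η τ' τ` is `1` for `τ' = τ` and `0` otherwise.  StWin gives `κ, σ, u` valid
at `t`.  The determinant of `Gm κ u (atx (cm h r g) x) (atx (cm h r y) x)` is continuous in `x` and nonzero at `t`, so it is nonzero on a
neighbourhood of `t`, which contains a clopen neighbourhood (`compact_exists_isClopen_in_isOpen`). -/
def StLoc : Prop :=
  StWin → StWia → ∀ (X : Type) [TopologicalSpace X] [CompactSpace X] [T2Space X] [TotallyDisconnectedSpace X] (h : X ≃ₜ X)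
    (r N : ℕ) (g y : FS X) (V : Set X) (t : X), (∀ x ∈ V, y 0 x = 1) →
    (∀ n : ℤ, n ≠ 0 → ∀ x ∈ V, (h ^ (-n) : X ≃ₜ X) x ∈ V → y n x = 0) →
    3 * (SB r N).card ≤ (vis h r N V t).card →
    ∃ O : Set X, IsClopen O ∧ t ∈ O ∧ ∃ (κ : Fin r → Fin 4) (σ : Equiv.Perm (Fin r)) (u : Matrix (Fin r) (Fin r) ℂ),
      WD r (SB r N) κ σ u ∧ ∀ x ∈ O, IsUnit (Gm κ u (atx (cm h r g) x) (atx (cm h r y) x))

/-! ### assembly of the idempotent -/

/-- ASM (window data on towers give the exchange condition).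

Proof. `x = ev g`, `w = tw h (tw h g (un - g)) s`, so `ev w = x (1 - x) s' = (1 - x) x s'`, `s' = ev s`.  For each `v` let `κ, σ, u` be the data,
`C = cm h (r v) g`, `Et = cm h (r v) w`, `G = Gm κ (cst u) C Et` (matrix of functions; `atx G x = Gm κ u (atx C x) (atx Et x)`, because evaluation at
`x` is a ring homomorphism), `H` = the matrix of functions with `atx H x = (atx G x)⁻¹` for `x ∈ Y v` and `0` otherwise (continuous since `Y v` is
clopen and the inverse is `(det)⁻¹ • adjugate`).  On `Y v`: `G H = 1 = H G`.  `D_k` = diagonal matrix of the indicator of `κ = k` (constants), `W` = matrix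
with `W (σ l) l = 1` for `κ l = 3`, all other entries `0`; `W'` = its transpose.  `D_k` are orthogonal idempotents with sum `1`,
`D_2 W = W = W D_3`, `D_3 W' = W' = W' D_2`, `W' W = D_3`, `W W' = D_2`.
In `A`: `p, q, f, r` := `ev (BB (G D_k H))`, `k = 0, 1, 2, 3`; `φ := ev (BB (G W H))`, `φ' := ev (BB (G W' H))`.  By StBbm the relations of StAbs hold
(use the congruence part with `H G = 1` on `Y v`; `G D_0 H + ... + G D_3 H = G H = 1` on `Y v`).
`G D_0 = C u D_0`, `G D_1 = (1 - C) u D_1`, `G D_2 = Et u D_2`, and the boundary rows of `u D_k H` vanish for `k = 0, 1, 2` (`zS`).  So by StBba (for `g` and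
for `w`): `p = x * ev (BB (u D_0 H))`, `q = (1 - x) * ev (BB (u D_1 H))`, `f = ev w * ev (BB (u D_2 H)) = x * ((1 - x) s' ev(...)) = (1 - x) * (x s' ev(...))`.
StAbs. -/
def StAsm : Prop :=
  StEvm → StBbm → StBba → StAbs → ∀ (X : Type) [TopologicalSpace X] (h : X ≃ₜ X) (A : Type) [Ring A] [Algebra ℂ A]
    (j : C(X, ℂ) →ₐ[ℂ] A) (U : Aˣ), Cov h j U → ∀ (g s : FS X) (N n : ℕ) (Y : Fin n → Set X) (r : Fin n → ℕ), Tow h n Y r →
    (∀ m : ℤ, (N : ℤ) < |m| → g m = 0) → (∀ m : ℤ, (N : ℤ) < |m| → tw h (tw h g (un - g)) s m = 0) →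
    (∀ v, ∃ (κ : Fin (r v) → Fin 4) (σ : Equiv.Perm (Fin (r v))) (u : Matrix (Fin (r v)) (Fin (r v)) ℂ),
      WD (r v) (SB (r v) N) κ σ u ∧
      ∀ x ∈ Y v, IsUnit (Gm κ u (atx (cm h (r v) g) x) (atx (cm h (r v) (tw h (tw h g (un - g)) s)) x))) →
    Suit (ev j U g)

/-! ### dynamics -/

/-- SYN (return times of open sets are bounded).

Proof. Let `C_m = {x : h^n x ∉ V for all n ≥ -m}` (`m : ℕ`, `n : ℤ`): closed, decreasing in `m`.  If all are nonempty, there is `x` in their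
intersection (compactness), and the orbit of `x` does not meet `V`, contradiction.  So for some `m` every `x` has an `n ≥ -m` with `h^n x ∈ V`; applied
to `h^m x`: every `x` has an `i ≥ 0` with `h^i x ∈ V`.  The open sets `h^(-i) V` cover the compact `X`, which gives `G`.  The same for `h⁻¹`. -/
def StSyn : Prop :=
  ∀ (X : Type) [TopologicalSpace X] [CompactSpace X] (h : X ≃ₜ X),
    (∀ x, Dense (Set.range fun n : ℤ => (h ^ n : X ≃ₜ X) x)) → ∀ V : Set X, IsOpen V → V.Nonempty →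
    ∃ G : ℕ, ∀ t, (∃ i : ℕ, i < G ∧ (h ^ (i : ℤ) : X ≃ₜ X) t ∈ V) ∧ ∃ i : ℕ, i < G ∧ (h ^ (-(i : ℤ)) : X ≃ₜ X) t ∈ V

/-- GAP (a clopen base with long returns which see `V` often).

Proof. `G` from StSyn for `V`, `L = 2 N + K G + 1`.  Take any `t0`.  `h^i t0 ≠ t0` for `i ≠ 0` (otherwise the orbit of `t0` is finite, hence closed, and dense,
so `X` is finite).  There is a clopen `Y0 ∋ t0` with `h^i Y0 ∩ Y0 = ∅` for `0 < i < L`.  So a first return time `r` is at least `L`, and the positions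
`N + a G, ..., N + a G + G - 1`, `a < K`, lie in `[N, r - N)` and contain an `i` with `h^i t ∈ V`. -/
def StGap : Prop :=
  StSyn → ∀ (X : Type) [TopologicalSpace X] [CompactSpace X] [T2Space X] [TotallyDisconnectedSpace X] [Infinite X]
    (h : X ≃ₜ X), (∀ x, Dense (Set.range fun n : ℤ => (h ^ n : X ≃ₜ X) x)) → ∀ V : Set X, IsOpen V → V.Nonempty → ∀ N K : ℕ,
    ∃ Y0 : Set X, IsClopen Y0 ∧ Y0.Nonempty ∧ ∀ t ∈ Y0, ∀ r : ℕ, FR h Y0 t r →
      K ≤ (vis h r N V t).card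

/-- TOW (towers over a clopen base on which a local property holds).

Proof. By StSyn every point of `Y0` has a first return time, bounded by `G`, and every `x ∈ X` has an `i < G` with `h^(-i) x ∈ Y0`.  For `t ∈ Y0` with the first
return time `r` and the clopen `O` of the hypothesis let `O_t = O ∩ {x ∈ Y0 : FR h Y0 x r}` (clopen: finitely many conditions `h^i x ∈ Y0`).
Finitely many `O_t` cover the compact `Y0`; make them disjoint: `Y v = O_v \ ⋃_(w < v) O_w`, `r v` the corresponding time; `Φ (Y v) (r v)` holds.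
`cover`: let `i` be the least natural number with `h^(-i) x ∈ Y0`, `y = h^(-i) x ∈ Y v`; if `r v ≤ i` then `h^(r v) y = h^(-(i - r v)) x ∈ Y0`, `0 < r v`,
contradicts the choice of `i`.  `disj`: let `h^(-i) x ∈ Y v`, `h^(-k) x ∈ Y w`, `i < k < r w`: then `h^(k-i) (h^(-k) x) = h^(-i) x ∈ Y0` with `0 < k - i < r w`,
contradiction to `FR`; the case `k < i` is symmetric; if `i = k` then `v = w` by disjointness. -/
def StTow : Prop :=
  StSyn → ∀ (X : Type) [TopologicalSpace X] [CompactSpace X] [T2Space X] [TotallyDisconnectedSpace X] (h : X ≃ₜ X),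
    (∀ x, Dense (Set.range fun n : ℤ => (h ^ n : X ≃ₜ X) x)) → ∀ (Y0 : Set X) (Φ : Set X → ℕ → Prop), IsClopen Y0 → Y0.Nonempty →
    (∀ (O O' : Set X) (r : ℕ), O' ⊆ O → Φ O r → Φ O' r) →
    (∀ t ∈ Y0, ∀ r : ℕ, FR h Y0 t r → ∃ O : Set X, IsClopen O ∧ t ∈ O ∧ Φ O r) →
    ∃ (n : ℕ) (Y : Fin n → Set X) (r : Fin n → ℕ), Tow h n Y r ∧ ∀ v, Φ (Y v) (r v)

/-- FLX (flexible element).

Proof. `w = tw h g (un - g) ≠ 0`: there are `n0`, `t1` with `w_(n0)(t1) ≠ 0`.  The orbit of `t1` is infinite (see StGap), so there is a clopen `V ∋ t1` on which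
`w_(n0) ≠ 0` and with `V ∩ h^(-m) V = ∅` for all `m ≠ 0` with `w_(m+n0) ≠ 0` (finitely many).  `F` = the continuous function `1 / w_(n0)` on `V`, `0` outside
(`chi V` times ...), `s = single (-n0) (cmp h n0 F)`.  Then `(tw h w s)_m = w_(m+n0) * (F ∘ h^(-m))`.  For `m = 0` and `x ∈ V` this is `1`; for `m ≠ 0`, `x ∈ V`,
`h^(-m) x ∈ V` we have `w_(m+n0) = 0` by the choice of `V` (`h^(-m) x ∈ V ∩ h^(-m) V`). -/
def StFlx : Prop :=
  ∀ (X : Type) [TopologicalSpace X] [CompactSpace X] [T2Space X] [TotallyDisconnectedSpace X] [Infinite X] (h : X ≃ₜ X),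
    (∀ x, Dense (Set.range fun n : ℤ => (h ^ n : X ≃ₜ X) x)) → ∀ g : FS X, tw h g (un - g) ≠ 0 →
    ∃ (s : FS X) (V : Set X), IsClopen V ∧ V.Nonempty ∧ (∀ x ∈ V, tw h (tw h g (un - g)) s 0 x = 1) ∧
      ∀ n : ℤ, n ≠ 0 → ∀ x ∈ V, (h ^ (-n) : X ≃ₜ X) x ∈ V → tw h (tw h g (un - g)) s n x = 0

/-! ### Banach algebras -/

/-- OPN (the exchange condition is open).

Proof. Let `e = x y` be idempotent, `1 - e = (1 - x) z`.  For `x' ∈ A` let `a = x' y e`, `b = (1 - x') z (1 - e)`, `v = a + b`.  `v` is continuous in `x'` and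
equals `e e + (1 - e)(1 - e) = 1` for `x' = x`, so it is a unit for `x'` near `x` (units are open in a complete normed ring).  As `a e = a`, `b e = 0`:
`v e = a`.  `e' := a v⁻¹ = v e v⁻¹` is idempotent and in `x'A`; `1 - e' = (v - a) v⁻¹ = b v⁻¹ ∈ (1 - x')A`. -/
def StOpn : Prop :=
  ∀ (A : Type) [NormedRing A] [CompleteSpace A], IsOpen {x : A | Suit x}

end Pool.Agent.Helper49.KX
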