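import Pool.Agent.Helper49.KX.Fin

/-!
# Project KX (MP_c973ff_an): the statement of the theorem in short form
-/

set_option autoImplicit false

namespace Pool.Agent.Helper49.KX

open Topology
open scoped ENNReal

/-- all orbits of `h` are dense -/
def Minl {X : Type} [TopologicalSpace X] (h : X ≃ₜ X) : Prop :=
  ∀ x, Dense (Set.range fun n : ℤ => (h ^ n : X ≃ₜ X) x)

/-- the exchange condition in the algebra of finite sums: for every `g` there is an idempotent `e = g y` with
`1 - e = (1 - g) z` -/
def AlgEx {X : Type} [TopologicalSpace X] (h : X ≃ₜ X) : Prop :=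
  ∀ g : FS X, ∃ y z : FS X, tw h (tw h g y) (tw h g y) = tw h g y ∧ un - tw h g y = tw h (un - g) z

/-- in `A = F^p_r(ℤ, X, h)` all finite sums satisfy the exchange condition, and the set of the elements which satisfy it is
open and dense -/
def FpEx (p : ℝ≥0∞) [Fact (1 ≤ p)] {X : Type} [TopologicalSpace X] [CompactSpace X] (h : X ≃ₜ X) : Prop :=
  ∀ (A : Type) [NormedRing A] [NormedAlgebra ℂ A] (j : C(X, ℂ) →ₐ[ℂ] A) (U : Aˣ), IsFp p h A j U →
    (∀ g : FS X, Suit (ev j U g)) ∧ IsOpen {x : A | Suit x} ∧ Dense {x : A | Suit x}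

end Pool.Agent.Helper49.KX
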